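import Pool.Agent.N949.PG.Fin
import Pool.Agent.N530.PG.Cyc
import Pool.Agent.N196.PG.Jor
import Pool.Agent.N40.PG.Hul
import Pool.Agent.N216.PG.Iso
import Pool.Agent.N195.PG.Cmb
import Pool.Agent.N232.PG.Two
import Pool.Agent.N346.PG.Ell

/-!
The shapes and areas of self-avoiding polygons: all jobs together.
-/

set_option autoImplicit false

namespace Pool.Agent.N949.PG

open Pool.Agent.N941.SP

theorem all :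
    (∀ γ ∈ closure Jordan, ∀ ε : ℝ, 0 < ε → ∃ (K : ℝ) (n₀ : ℕ), ∀ n ≥ n₀,
      Real.exp (-(K * Real.log n ^ 3)) ≤ prob n (fun f => ‖Y (2 * n) f - γ‖ ≤ ε)) ∧
    (∀ γ ∉ closure Jordan, ∃ ε : ℝ, 0 < ε ∧ ∀ n ≥ 2,
      prob n (fun f => ‖Y (2 * n) f - γ‖ ≤ ε) = 0) ∧
    (∀ a : ℝ, 0 ≤ a → a ≤ Real.pi / 4 → ∀ ε : ℝ, 0 < ε → ∃ (K : ℝ) (n₀ : ℕ), ∀ n ≥ n₀,
      Real.exp (-(K * Real.log n ^ 3)) ≤ prob n (fun f =>
        |(area (2 * n) f : ℝ) / Metric.diam (Set.range (curve (2 * n) f)) ^ 2 - a| ≤ ε)) ∧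
    ∀ n ≥ 2, ∀ f : ZMod (2 * n) → ℤ × ℤ, IsLoop (2 * n) f →
      (area (2 * n) f : ℝ) ≤ Real.pi / 4 * Metric.diam (Set.range (curve (2 * n) f)) ^ 2 :=
  final Pool.Agent.N232.PG.t_TWO Pool.Agent.N530.PG.t_CYC Pool.Agent.N196.PG.t_JOR
    Pool.Agent.N346.PG.t_ELL
    (Pool.Agent.N195.PG.t_CMB Pool.Agent.N40.PG.t_HUL Pool.Agent.N216.PG.t_ISO)

end Pool.Agent.N949.PG
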