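import Pool.Agent.N949.PG.Def

/-!
The number of self-avoiding polygons which follow a given Jordan curve.
-/

set_option autoImplicit false

namespace Pool.Agent.N949.PG

open Pool.Agent.N941.SP
open Finset Real
open Pool.Agent.H122R3.SX (Adj V W X pos Saw c walks fs mem_fs fw fw_inj ncard_walks
  walks_finite pos_append pos_nil)
open Pool.Agent.TH303.SX2 (Bd)

/-! ### lattice cycles -/

/-- a lattice cycle is a path with one more step -/
theorem cyc_lp {L : ℕ} {P : ℕ → ℤ × ℤ} (hL : 3 ≤ L) (hPL : P L = P 0)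
    (hadj : ∀ i < L, Adj (P i) (P (i + 1))) (hinj : ∀ i < L, ∀ j < L, P i = P j → i = j) :
    Lp (L - 1) P := by
  have hun : ∀ i < L, Un (P (i + 1) - P i) := fun i hi => (adj_iff_un _ _).1 (hadj i hi)
  -- equality of vertices with indices up to L
  have heq : ∀ i < L, ∀ j, 1 ≤ j → j ≤ L → P i = P j → i = j ∨ (i = 0 ∧ j = L) := by
    intro i hi j hj1 hj h
    rcases Nat.lt_or_ge j L with h1 | h1
    · exact Or.inl (hinj i hi j h1 h)
    · have h2 : j = L := by omega
      rw [h2, hPL] at h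
      exact Or.inr ⟨hinj i hi 0 (by omega) h, h2⟩
  refine ⟨fun i hi => hun i (by omega), fun i hi j hj h => hinj i (by omega) j (by omega) h, ?_⟩
  have main : ∀ i j, i < j → j < L → P i + P (i + 1) ≠ P j + P (j + 1) := by
    intro i j hij hj h
    have h1 := hun i (by omega)
    have h2 := hun j hj
    have h3 : P i + (P i + (P (i + 1) - P i)) = P j + (P j + (P (j + 1) - P j)) := by
      rw [add_sub_cancel, add_sub_cancel]; exact h
    rcases edge_eq h1 h2 h3 with h4 | ⟨h4, h5⟩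
    · have := hinj i (by omega) j hj h4
      omega
    · rw [add_sub_cancel] at h4 h5
      rcases heq j hj (i + 1) (by omega) (by omega) h4 with h6 | ⟨h6, h7⟩
      · rcases heq i (by omega) (j + 1) (by omega) (by omega) h5 with h8 | ⟨h8, h9⟩
        · omega
        · omega
      · omega
  intro i hi j hj h
  rcases Nat.lt_trichotomy i j with h1 | h1 | h1
  · exact absurd h (main i j h1 (by omega))
  · exact h1
  · exact absurd h.symm (main j i h1 (by omega))

/-- lattice cycles have even length -/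
theorem even_length {L : ℕ} {P : ℕ → ℤ × ℤ} (hPL : P L = P 0)
    (hadj : ∀ i < L, Adj (P i) (P (i + 1))) : L % 2 = 0 := by
  have key : ∀ k ≤ L, ((P k).1 + (P k).2 - (P 0).1 - (P 0).2 - k) % 2 = 0 := by
    intro k
    induction k with
    | zero => intro _; simp
    | succ k ih =>
      intro hk
      have h1 := ih (by omega)
      have h2 := hadj k (by omega)
      unfold Adj at h2
      push_cast
      rcases abs_cases ((P k).1 - (P (k + 1)).1) with h3 | h3 <;>
        rcases abs_cases ((P k).2 - (P (k + 1)).2) with h4 | h4 <;> omega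
  have := key L le_rfl
  rw [hPL] at this
  omega

/-! ### blocks of two lengths -/

/-- the times -/
def tau (m j i : ℕ) : ℕ := (m + 4) * i + 2 * min i j

/-- the lengths -/
def len (m j i : ℕ) : ℕ := if i < j then m + 6 else m + 4

theorem tau_succ (m j i : ℕ) : tau m j (i + 1) = tau m j i + len m j i := by
  unfold tau len
  rw [mul_add, mul_one]
  split_ifs with h
  · rw [min_eq_left (by omega : i + 1 ≤ j), min_eq_left (by omega : i ≤ j)]
    omega
  · rw [min_eq_right (by omega : j ≤ i + 1), min_eq_right (by omega : j ≤ i)]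
    omega

theorem len_pos (m j i : ℕ) : 4 ≤ len m j i := by
  unfold len
  split_ifs <;> omega

theorem tau_mono (m j : ℕ) : StrictMono (tau m j) := by
  apply strictMono_nat_of_lt_succ
  intro i
  rw [tau_succ]
  have := len_pos m j i
  omega

theorem tau_zero (m j : ℕ) : tau m j 0 = 0 := by
  unfold tau
  simp

section
variable {Y : ℤ} {L m j n : ℕ} {P : ℕ → ℤ × ℤ} (hY : 1 ≤ Y) (hL : 4 ≤ L) (hj : j ≤ L)
  (hn : 2 * n = tau m j L) (hPL : P L = P 0)
  (hadj : ∀ i < L, Adj (P i) (P (i + 1)))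
  (hinj : ∀ i < L, ∀ j < L, P i = P j → i = j)

/-- the blocks -/
def blk' (w : ℕ → W) (i s : ℕ) : ℤ × ℤ := V ((w i).take s)

/-- the loop of a family of words -/
def lo (Y : ℤ) (m j N : ℕ) (P : ℕ → ℤ × ℤ) (w : ℕ → W) : ZMod N → ℤ × ℤ :=
  fun k => subst Y P (tau m j) (blk' w) k.val - sc Y (P 0)

include hY in
theorem blk_facts' {w : ℕ → W} {i : ℕ} (hw : Dm Y (w i) ∧ (w i).length = len m j i) :
    Fl Y (tau m j (i + 1) - tau m j i) (blk' w i) := by
  rw [tau_succ, Nat.add_sub_cancel_left]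
  have h1 := hw.1.fl hY
  rw [hw.2] at h1
  exact h1

include hY hL hn hPL hadj hinj in
theorem lo_mem {w : ℕ → W} (hw : ∀ i < L, Dm Y (w i) ∧ (w i).length = len m j i) :
    IsLoop (2 * n) (lo Y m j (2 * n) P w) := by
  have hlp := cyc_lp (by omega) hPL hadj hinj
  have hτ := tau_mono m j
  have hτ0 := tau_zero m j
  have hf : ∀ i < L - 1, Fl Y (tau m j (i + 1) - tau m j i) (blk' w i) :=
    fun i hi => blk_facts' hY (hw i (by omega))
  have hlast : Fl Y (tau m j L - tau m j (L - 1)) (blk' w (L - 1)) := by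
    have := blk_facts' hY (hw (L - 1) (by omega))
    rwa [show L - 1 + 1 = L by omega] at this
  obtain ⟨r, hr⟩ : ∃ r, r = tau m j L - tau m j (L - 1) - 1 := ⟨_, rfl⟩
  have hone := hlast.one
  have hr' : Blk Y r (blk' w (L - 1)) := by rw [hr]; exact hlast.blk
  have hsum : tau m j (L - 1) + r + 1 = 2 * n := by omega
  have hrL : tau m j (L - 1) + r < tau m j (L - 1 + 1) := by
    rw [show L - 1 + 1 = L by omega]; omega
  have hn0 : 2 ≤ 2 * n := by
    have h1 : 4 ≤ tau m j L := by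
      have h2 : (m + 4) * 1 ≤ (m + 4) * L := Nat.mul_le_mul_left _ (by omega)
      unfold tau
      omega
    omega
  have : NeZero (2 * n) := ⟨by omega⟩
  have : Fact (1 < 2 * n) := ⟨by omega⟩
  have hs0 : subst Y P (tau m j) (blk' w) 0 = sc Y (P 0) := by
    have h1 := subst_tau (Y := Y) (p := P) (τ := tau m j) (d := blk' w) hτ hτ0 (i := 0)
      (by simp [blk', V])
    rwa [hτ0] at h1
  refine ⟨?_, ?_, ?_⟩
  · unfold lo
    rw [ZMod.val_zero, hs0, sub_self]
  · intro k k' h
    unfold lo at h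
    have h1 := sub_left_injective h
    have b1 := ZMod.val_lt k
    have b2 := ZMod.val_lt k'
    have h2 := subst_inj hY hlp hτ hτ0 hf hr' hrL (k := k.val) (k' := k'.val) (by omega)
      (by omega) h1
    exact ZMod.val_injective _ h2
  · intro k
    have b1 := ZMod.val_lt k
    rcases Nat.lt_or_ge (k.val + 1) (2 * n) with h1 | h1
    · have h2 : (k + 1).val = k.val + 1 := by
        rw [ZMod.val_add_of_lt]
        · rw [ZMod.val_one]
        · rw [ZMod.val_one]; exact h1
      unfold lo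
      rw [h2]
      have h3 := subst_adj hlp hτ hτ0 hf hr' hrL (k := k.val) (by omega)
      unfold Adj at h3
      simp only [Prod.fst_sub, Prod.snd_sub]
      rw [abs_sub_comm (subst Y P (tau m j) (blk' w) k.val).1,
        abs_sub_comm (subst Y P (tau m j) (blk' w) k.val).2] at h3
      rw [sub_sub_sub_cancel_right, sub_sub_sub_cancel_right]
      exact h3
    · have hk : k.val = 2 * n - 1 := by omega
      have h2 : k + 1 = 0 := by
        rw [← ZMod.natCast_zmod_val k, hk]
        have : ((2 * n - 1 : ℕ) : ZMod (2 * n)) + 1 = ((2 * n - 1 + 1 : ℕ) : ZMod (2 * n)) := by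
          push_cast; rfl
        rw [this, show 2 * n - 1 + 1 = 2 * n by omega, ZMod.natCast_self]
      rw [h2]
      unfold lo
      rw [ZMod.val_zero, hk, hs0]
      have hidx : idx (tau m j) (2 * n - 1) = L - 1 := by
        apply idx_eq hτ hτ0
        · omega
        · rw [show L - 1 + 1 = L by omega]; omega
      have e1 : subst Y P (tau m j) (blk' w) (2 * n - 1) = sc Y (P (L - 1)) +
          rot (P L - P (L - 1)) (blk' w (L - 1) (tau m j L - tau m j (L - 1) - 1)) := by
        unfold subst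
        rw [hidx, show L - 1 + 1 = L by omega]
        congr 3
        omega
      have e3 : sc Y (P 0) = sc Y (P (L - 1)) + rot (P L - P (L - 1)) (0, Y) := by
        rw [← hPL, rot_top]
        unfold sc
        ext
        · simp only [Prod.fst_add, Prod.fst_sub]; ring
        · simp only [Prod.snd_add, Prod.snd_sub]; ring
      have hun := hlp.un (L - 1) le_rfl
      rw [show L - 1 + 1 = L by omega] at hun
      have h3 := adj_rot hun (sc Y (P (L - 1))) hlast.last
      rw [← e1, ← e3] at h3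
      unfold Adj at h3
      simp only [Prod.fst_sub, Prod.snd_sub]
      rw [sub_self, sub_self, zero_sub, zero_sub, abs_neg, abs_neg]
      exact h3

include hY hL hn hPL hadj hinj in
theorem lo_inj {w w' : ℕ → W} (hw : ∀ i < L, Dm Y (w i) ∧ (w i).length = len m j i)
    (hw' : ∀ i < L, Dm Y (w' i) ∧ (w' i).length = len m j i)
    (h : lo Y m j (2 * n) P w = lo Y m j (2 * n) P w') : ∀ i < L, w i = w' i := by
  intro i hi
  have hlp := cyc_lp (by omega) hPL hadj hinj
  have hτ := tau_mono m j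
  have hτ0 := tau_zero m j
  apply fw_inj (hw i hi).2 (hw' i hi).2
  funext s
  unfold fw
  have hs := s.2
  have hle : tau m j (i + 1) ≤ tau m j L := hτ.monotone (by omega)
  have hsucc := tau_succ m j i
  have hlen := len_pos m j i
  rcases Nat.lt_or_ge (s : ℕ) (len m j i) with h1 | h1
  · have hk : tau m j i + s < 2 * n := by omega
    have h2 := congrFun h ((tau m j i + s : ℕ) : ZMod (2 * n))
    unfold lo at h2
    rw [ZMod.val_natCast_of_lt hk] at h2
    have h2' := sub_left_injective h2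
    have hidx : idx (tau m j) (tau m j i + s) = i :=
      idx_eq hτ hτ0 (by omega) (by omega)
    unfold subst at h2'
    rw [hidx] at h2'
    have h3 := rot_inj (hlp.un i (by omega)) (add_left_cancel h2')
    rw [Nat.add_sub_cancel_left] at h3
    exact h3
  · have e : (s : ℕ) = len m j i := by omega
    rw [e, List.take_of_length_le (hw i hi).2.le, List.take_of_length_le (hw' i hi).2.le]
    unfold V
    rw [(hw i hi).1.top, (hw i hi).1.hor, (hw' i hi).1.top, (hw' i hi).1.hor]

include hY hL hj hn hPL hadj hinj in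
theorem lo_close {γ : C(unitInterval, ℂ)} (hγ0 : γ 0 = 0) {R εa ε1 δ1 : ℝ} (hR : 0 < R)
    (hεa : 0 < εa) (hR1 : 1 / εa ≤ R) (hLa : 1 / εa ≤ L) (hεδ : 2 * εa ≤ δ1)
    (hm : 2 / εa ≤ m)
    (huc : ∀ s t : unitInterval, |(s : ℝ) - t| ≤ δ1 → ‖γ s - γ t‖ ≤ ε1)
    (hP : ∀ k ≤ L, ‖pt (P k) - R * cv γ ((k : ℝ) / L)‖ ≤ εa * R)
    {w : ℕ → W} (hw : ∀ i < L, Dm Y (w i) ∧ (w i).length = len m j i) {k : ℕ} (hk : k < 2 * n) :
    ‖pt (lo Y m j (2 * n) P w k) - ((Y * R : ℝ) : ℂ) * cv γ ((k : ℝ) / (2 * n : ℕ))‖ ≤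
      (3 * εa + ε1) * (Y * R) := by
  have hlp := cyc_lp (by omega) hPL hadj hinj
  have hτ := tau_mono m j
  have hτ0 := tau_zero m j
  have hf : ∀ i < L - 1, Fl Y (tau m j (i + 1) - tau m j i) (blk' w i) :=
    fun i hi => blk_facts' hY (hw i (by omega))
  have hlast : Fl Y (tau m j L - tau m j (L - 1)) (blk' w (L - 1)) := by
    have := blk_facts' hY (hw (L - 1) (by omega))
    rwa [show L - 1 + 1 = L by omega] at this
  obtain ⟨r, hr⟩ : ∃ r, r = tau m j L - tau m j (L - 1) - 1 := ⟨_, rfl⟩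
  have hone := hlast.one
  have hr' : Blk Y r (blk' w (L - 1)) := by rw [hr]; exact hlast.blk
  have hrL : tau m j (L - 1) + r < tau m j (L - 1 + 1) := by
    rw [show L - 1 + 1 = L by omega]; omega
  have h1 := subst_close (by omega : 0 ≤ Y) hlp hτ hτ0 hf hr' hrL (k := k) (by omega)
  obtain ⟨h2, h3⟩ := idx_spec hτ hτ0 (k : ℕ)
  obtain ⟨i, hi⟩ : ∃ i, i = idx (tau m j) (k : ℕ) := ⟨_, rfl⟩
  rw [← hi] at h1 h2 h3
  have hiL : i < L := by
    have h4 : tau m j i < tau m j L := by omega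
    exact hτ.lt_iff_lt.1 h4
  have hYr : (1 : ℝ) ≤ (Y : ℝ) := by exact_mod_cast hY
  have hLr : (0 : ℝ) < L := by exact_mod_cast (by omega : 0 < L)
  have hn0 : (0 : ℝ) < ((2 * n : ℕ) : ℝ) := by exact_mod_cast (by omega : 0 < 2 * n)
  have hL2 : 1 / (L : ℝ) ≤ εa := by
    rw [div_le_iff₀ hLr]
    rw [div_le_iff₀ hεa] at hLa
    linarith
  have hm4 : (0 : ℝ) < (m : ℝ) + 4 := by positivity
  have hm2 : 2 / ((m : ℝ) + 4) ≤ εa := by
    rw [div_le_iff₀ hm4]
    rw [div_le_iff₀ hεa] at hm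
    nlinarith
  have hnr : ((2 * n : ℕ) : ℝ) = (m + 4) * L + 2 * (min L j : ℕ) := by
    rw [hn]
    unfold tau
    push_cast
    ring
  have hjL : ((min L j : ℕ) : ℝ) ≤ L := by exact_mod_cast Nat.min_le_left _ _
  have hjL0 : (0 : ℝ) ≤ ((min L j : ℕ) : ℝ) := Nat.cast_nonneg _
  have htime : |(i : ℝ) / L - (k : ℝ) / (2 * n : ℕ)| ≤ δ1 := by
    have b1 : ((k : ℕ) : ℝ) / (2 * n : ℕ) ≤ (i : ℝ) / L + 1 / L + 2 / ((m : ℝ) + 4) := by
      have c1 : (k : ℝ) ≤ (m + 4) * (i + 1) + 2 * L := by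
        have c0 : (k : ℕ) ≤ (m + 4) * (i + 1) + 2 * L := by
          unfold tau at h3
          have : min (i + 1) j ≤ L := by omega
          omega
        exact_mod_cast c0
      have c2 : ((m : ℝ) + 4) * L ≤ (2 * n : ℕ) := by
        rw [hnr]
        linarith
      calc ((k : ℕ) : ℝ) / (2 * n : ℕ) ≤ ((m + 4) * (i + 1) + 2 * L) / (((m : ℝ) + 4) * L) := by
            gcongr
        _ = _ := by field_simp
    have b2 : (i : ℝ) / L - 2 / ((m : ℝ) + 4) ≤ ((k : ℕ) : ℝ) / (2 * n : ℕ) := by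
      have c1 : ((m : ℝ) + 4) * i ≤ k := by
        have c0 : (m + 4) * i ≤ (k : ℕ) := by
          unfold tau at h2
          omega
        exact_mod_cast c0
      have c2 : (i : ℝ) ≤ L := by exact_mod_cast hiL.le
      have c3 : ((2 * n : ℕ) : ℝ) ≤ (m + 4) * L + 2 * L := by
        rw [hnr]
        linarith
      have c6 : (0 : ℝ) ≤ i := Nat.cast_nonneg i
      rw [le_div_iff₀ hn0]
      have c7 : (i : ℝ) / L - 2 / ((m : ℝ) + 4) ≤ i / L := by
        have : 0 ≤ 2 / ((m : ℝ) + 4) := by positivity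
        linarith
      rcases le_or_gt ((i : ℝ) / L - 2 / ((m : ℝ) + 4)) 0 with hneg | hpos
      · calc ((i : ℝ) / L - 2 / ((m : ℝ) + 4)) * (2 * n : ℕ) ≤ 0 :=
            mul_nonpos_of_nonpos_of_nonneg hneg hn0.le
          _ ≤ k := Nat.cast_nonneg k
      · calc ((i : ℝ) / L - 2 / ((m : ℝ) + 4)) * (2 * n : ℕ) ≤
            ((i : ℝ) / L - 2 / ((m : ℝ) + 4)) * ((m + 4) * L + 2 * L) := by gcongr
          _ = (m + 4) * i + 2 * i - 2 * L - 4 * L / (m + 4) := by
            field_simp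
            ring
          _ ≤ (m + 4) * i := by
            have : 0 ≤ 4 * (L : ℝ) / (m + 4) := by positivity
            linarith
          _ ≤ k := c1
    rw [abs_le]
    constructor <;> linarith
  have h4 := cv_close huc htime
  have h5 := hP i hiL.le
  have h0 := hP 0 (Nat.zero_le _)
  have hcv0 : cv γ (((0 : ℕ) : ℝ) / L) = 0 := by
    rw [Nat.cast_zero, zero_div, cv_of_mem γ ⟨le_rfl, zero_le_one⟩]
    exact hγ0
  rw [hcv0, mul_zero, sub_zero] at h0
  have hval : (k : ZMod (2 * n)).val = k := ZMod.val_natCast_of_lt hk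
  have e : pt (lo Y m j (2 * n) P w k) - ((Y * R : ℝ) : ℂ) * cv γ ((k : ℝ) / (2 * n : ℕ)) =
      ((pt (subst Y P (tau m j) (blk' w) k) - (Y : ℂ) * pt (P i)) +
      (Y : ℂ) * (pt (P i) - R * cv γ ((i : ℝ) / L)) +
      ((Y * R : ℝ) : ℂ) * (cv γ ((i : ℝ) / L) - cv γ ((k : ℝ) / (2 * n : ℕ)))) -
      (Y : ℂ) * pt (P 0) := by
    unfold lo
    rw [hval, pt_sub, pt_sc]
    push_cast
    ring
  rw [e]
  refine (norm_sub_le _ _).trans ?_
  have h9 := norm_add₃_le (a := pt (subst Y P (tau m j) (blk' w) k) - (Y : ℂ) * pt (P i))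
    (b := (Y : ℂ) * (pt (P i) - R * cv γ ((i : ℝ) / L)))
    (c := ((Y * R : ℝ) : ℂ) * (cv γ ((i : ℝ) / L) - cv γ ((k : ℝ) / (2 * n : ℕ))))
  rw [norm_mul, norm_mul, Complex.norm_real, Complex.norm_intCast, Real.norm_eq_abs,
    abs_of_nonneg (by positivity : 0 ≤ (Y : ℝ) * R), abs_of_nonneg (by linarith : (0 : ℝ) ≤ Y)] at h9
  rw [norm_mul (Y : ℂ) (pt (P 0)), Complex.norm_intCast,
    abs_of_nonneg (by linarith : (0 : ℝ) ≤ Y)]
  have h6 : (Y : ℝ) * ‖pt (P i) - R * cv γ ((i : ℝ) / L)‖ ≤ Y * (εa * R) := by gcongr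
  have h7 : (Y : ℝ) * R * ‖cv γ ((i : ℝ) / L) - cv γ ((k : ℝ) / (2 * n : ℕ))‖ ≤ Y * R * ε1 := by
    gcongr
  have h8 : (Y : ℝ) ≤ εa * (Y * R) := by
    rw [div_le_iff₀ hεa] at hR1
    nlinarith
  have h10 : (Y : ℝ) * ‖pt (P 0)‖ ≤ Y * (εa * R) := by gcongr
  nlinarith

theorem loops_finite (N : ℕ) (hN : 1 ≤ N) : {f : ZMod N → ℤ × ℤ | IsLoop N f}.Finite := by
  have hne : NeZero N := ⟨by omega⟩
  apply Set.Finite.of_finite_image (f := fun f => fun k : Fin (N - 1 + 1) => f ((k : ℕ) : ZMod N))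
    ((walks_finite (N - 1)).subset ?_)
  · intro f hf g hg h
    funext k
    have h1 := congrFun h ⟨k.val, by have := ZMod.val_lt k; omega⟩
    simp only [ZMod.natCast_val, ZMod.cast_id', id_eq] at h1
    exact h1
  · rintro _ ⟨f, hf, rfl⟩
    refine ⟨?_, ?_, ?_⟩
    · simp only [Fin.val_zero, Nat.cast_zero]
      exact hf.1
    · intro k k' h
      have h1 := hf.2.1 h
      have h2 := congrArg ZMod.val h1
      rw [ZMod.val_natCast_of_lt (by have := k.2; omega),
        ZMod.val_natCast_of_lt (by have := k'.2; omega)] at h2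
      exact Fin.ext h2
    · intro k
      have h1 := hf.2.2 ((k : ℕ) : ZMod N)
      unfold Adj
      rw [abs_sub_comm, abs_sub_comm (f ((k.castSucc : ℕ) : ZMod N)).2]
      simpa using h1

theorem loops_le (N : ℕ) (hN : 1 ≤ N) : {f : ZMod N → ℤ × ℤ | IsLoop N f}.ncard ≤ c (N - 1) := by
  have hne : NeZero N := ⟨by omega⟩
  rw [← ncard_walks]
  refine Set.ncard_le_ncard_of_injOn (fun f => fun k : Fin (N - 1 + 1) => f ((k : ℕ) : ZMod N))
    ?_ ?_ (walks_finite _)
  · intro f hf
    refine ⟨?_, ?_, ?_⟩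
    · simp only [Fin.val_zero, Nat.cast_zero]
      exact hf.1
    · intro k k' h
      have h1 := hf.2.1 h
      have h2 := congrArg ZMod.val h1
      rw [ZMod.val_natCast_of_lt (by have := k.2; omega),
        ZMod.val_natCast_of_lt (by have := k'.2; omega)] at h2
      exact Fin.ext h2
    · intro k
      have h1 := hf.2.2 ((k : ℕ) : ZMod N)
      unfold Adj
      rw [abs_sub_comm, abs_sub_comm (f ((k.castSucc : ℕ) : ZMod N)).2]
      simpa using h1
  · intro f hf g hg h
    funext k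
    have h1 := congrFun h ⟨k.val, by have := ZMod.val_lt k; omega⟩
    simp only [ZMod.natCast_val, ZMod.cast_id', id_eq] at h1
    exact h1

include hY hL hn hPL hadj hinj in
theorem prod_le (Q : (ZMod (2 * n) → ℤ × ℤ) → Prop)
    (hQ : ∀ w : ℕ → W, (∀ i < L, Dm Y (w i) ∧ (w i).length = len m j i) →
      Q (lo Y m j (2 * n) P w)) :
    ∏ i : Fin L, dm Y (len m j i) ≤ {f | IsLoop (2 * n) f ∧ Q f}.ncard := by
  classical
  have h1 : ∏ i : Fin L, dm Y (len m j i) =
      (Fintype.piFinset fun i : Fin L => fs (Dm Y) (len m j i)).card := by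
    rw [Fintype.card_piFinset]
    rfl
  obtain ⟨F, hF⟩ : ∃ F : (Fin L → W) → ℕ → W, F = fun v i => if h : i < L then v ⟨i, h⟩ else [] :=
    ⟨_, rfl⟩
  have hFi : ∀ v (i : Fin L), F v i = v i := by
    intro v i
    rw [hF]
    simp
  have hFw : ∀ v ∈ Fintype.piFinset fun i : Fin L => fs (Dm Y) (len m j i),
      ∀ i < L, Dm Y (F v i) ∧ (F v i).length = len m j i := by
    intro v hv i hi
    rw [Fintype.mem_piFinset] at hv
    have := hv ⟨i, hi⟩
    rw [mem_fs] at this
    rw [hFi v ⟨i, hi⟩]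
    exact this
  have hpos : 1 ≤ 2 * n := by
    have h2 : (m + 4) * 1 ≤ (m + 4) * L := Nat.mul_le_mul_left _ (by omega)
    rw [hn]
    unfold tau
    omega
  rw [h1, ← Set.ncard_coe_finset]
  refine Set.ncard_le_ncard_of_injOn (fun v => lo Y m j (2 * n) P (F v)) ?_ ?_
    ((loops_finite _ hpos).subset fun ω hω => hω.1)
  · intro v hv
    rw [mem_coe] at hv
    exact ⟨lo_mem hY hL hn hPL hadj hinj (hFw v hv), hQ _ (hFw v hv)⟩
  · intro v hv v' hv' h
    rw [mem_coe] at hv hv'
    have h2 := lo_inj hY hL hn hPL hadj hinj (hFw v hv) (hFw v' hv') h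
    funext i
    have := h2 i i.2
    rwa [hFi, hFi] at this

end

end Pool.Agent.N949.PG
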