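import Pool.Agent.N941.SP.Shp

/-!
Self-avoiding polygons of the square lattice as closed curves: definitions and statements of the
jobs.
-/

set_option autoImplicit false

namespace Pool.Agent.N949.PG

open Pool.Agent.N941.SP
open Pool.Agent.H122R3.SX (Adj V W)

/-- a closed nearest-neighbour loop on `ℤ²` with `m` steps, rooted at the origin and oriented,
that visits no vertex twice -/
def IsLoop (m : ℕ) (f : ZMod m → ℤ × ℤ) : Prop :=
  f 0 = 0 ∧ Function.Injective f ∧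
    ∀ i : ZMod m, |(f (i + 1)).1 - (f i).1| + |(f (i + 1)).2 - (f i).2| = 1

/-- the loop as a closed curve in `C([0,1], ℂ)`: the value at time `k / m` is `f k`, with linear
interpolation between these times -/
noncomputable def curve (m : ℕ) (f : ZMod m → ℤ × ℤ) : C(unitInterval, ℂ) where
  toFun t := ∑ k ∈ Finset.range m, ((max 0 (min 1 (m * (t : ℝ) - (k : ℝ))) : ℝ) : ℂ) *
      (pt (f ((k + 1 : ℕ) : ZMod m)) - pt (f (k : ZMod m)))
  continuous_toFun := by fun_prop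

/-- the closed curve divided by its diameter -/
noncomputable def Y (m : ℕ) (f : ZMod m → ℤ × ℤ) : C(unitInterval, ℂ) :=
  (Metric.diam (Set.range (curve m f)))⁻¹ • curve m f

/-- the simple closed curves of diameter `1` started at `0` -/
def Jordan : Set C(unitInterval, ℂ) :=
  {γ | γ 0 = 0 ∧ γ 1 = 0 ∧ (∀ s t : unitInterval, s ≠ 1 → t ≠ 1 → γ s = γ t → s = t) ∧
    Metric.diam (Set.range γ) = 1}

/-- the edge from `f k` to `f (k+1)` is horizontal, joins the columns `x = a` and `x = a + 1`, and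
has height larger than `b`: it lies above the unit cell `[a, a+1] × [b, b+1]` -/
def Above (m : ℕ) (f : ZMod m → ℤ × ℤ) (a b : ℤ) (k : ZMod m) : Prop :=
  (((f k).1 = a ∧ (f (k + 1)).1 = a + 1) ∨ ((f k).1 = a + 1 ∧ (f (k + 1)).1 = a)) ∧ b < (f k).2

/-- the unit cell `[a, a+1] × [b, b+1]` is enclosed by the loop: the vertical ray from the cell
upwards crosses an odd number of edges -/
def Encl (m : ℕ) (f : ZMod m → ℤ × ℤ) (c : ℤ × ℤ) : Prop :=
  Odd (Nat.card {k : ZMod m // Above m f c.1 c.2 k})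

/-- the area: the number of unit cells enclosed by the loop -/
noncomputable def area (m : ℕ) (f : ZMod m → ℤ × ℤ) : ℕ := Nat.card {c : ℤ × ℤ // Encl m f c}

/-- job TWO: diamond words of two lengths with the same height -/
def S_TWO : Prop := ∀ (Y : ℤ) (m : ℕ), 1 ≤ Y →
  dm Y m ≤ dm (Y + 4) (m + 4) ∧ dm Y m ≤ (m + 1) * dm (Y + 4) (m + 6)

/-- job CYC: lattice cycles close to a Jordan curve, with constant speed -/
def S_CYC : Prop := ∀ γ ∈ Jordan, ∀ ε : ℝ, 0 < ε →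
  ∃ (L : ℕ) (R : ℝ) (P : ℕ → ℤ × ℤ), 4 ≤ L ∧ 1 / ε ≤ R ∧ 1 / ε ≤ L ∧ P L = P 0 ∧
    (∀ i < L, Adj (P i) (P (i + 1))) ∧ (∀ i < L, ∀ j < L, P i = P j → i = j) ∧
    ∀ k ≤ L, ‖pt (P k) - R * cv γ ((k : ℝ) / L)‖ ≤ ε * R

/-- job JOR: self-avoiding polygons are Jordan curves -/
def S_JOR : Prop := ∀ (m : ℕ) (f : ZMod m → ℤ × ℤ), 3 ≤ m → IsLoop m f → Y m f ∈ Jordan

/-- the ellipse with half axes `1 / 2` and `h / 2`, started at its right end -/
noncomputable def ell (h : ℝ) (t : ℝ) : ℂ :=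
  ⟨(Real.cos (2 * Real.pi * t) - 1) / 2, h / 2 * Real.sin (2 * Real.pi * t)⟩

/-- job ELL: the area of a polygon close to an ellipse -/
def S_ELL : Prop := ∀ h : ℝ, 0 < h → h ≤ 1 → ∀ ε : ℝ, 0 < ε → ∃ η : ℝ, 0 < η ∧
  ∀ (m : ℕ) (f : ZMod m → ℤ × ℤ) (S : ℝ), 4 ≤ m → IsLoop m f → 1 / η ≤ S →
    (∀ k : ℕ, k < m → ‖pt (f (k : ZMod m)) - S * ell h ((k : ℝ) / m)‖ ≤ η * S) →
    |(area m f : ℝ) / S ^ 2 - Real.pi * h / 4| ≤ ε

/-- the closed unit cell `[a, a+1] × [b, b+1]` -/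
def cell (c : ℤ × ℤ) : Set ℂ :=
  {z | (c.1 : ℝ) ≤ z.re ∧ z.re ≤ c.1 + 1 ∧ (c.2 : ℝ) ≤ z.im ∧ z.im ≤ c.2 + 1}

/-- job HUL: the enclosed cells are in the convex hull of the loop -/
def S_HUL : Prop := ∀ (m : ℕ) (f : ZMod m → ℤ × ℤ) (D : ℝ), 4 ≤ m → IsLoop m f →
  (∀ i j, ‖pt (f i) - pt (f j)‖ ≤ D) → ∀ c c' : ℤ × ℤ, Encl m f c → Encl m f c' →
  ∀ z ∈ cell c, ∀ w ∈ cell c', ‖z - w‖ ≤ D

/-- job ISO: the isodiametric inequality in the plane -/
def S_ISO : Prop := ∀ (K : Set ℂ) (D : ℝ), IsCompact K → (∀ z ∈ K, ∀ w ∈ K, ‖z - w‖ ≤ D) →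
  MeasureTheory.volume K ≤ ENNReal.ofReal (Real.pi / 4 * D ^ 2)

/-- the isodiametric inequality for self-avoiding polygons -/
def S_AREA : Prop := ∀ (m : ℕ) (f : ZMod m → ℤ × ℤ) (D : ℝ), 4 ≤ m → IsLoop m f →
  (∀ i j, ‖pt (f i) - pt (f j)‖ ≤ D) → (area m f : ℝ) ≤ Real.pi / 4 * D ^ 2

end Pool.Agent.N949.PG
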