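import Pool.Agent.N949.PG.Low

/-!
The shapes and areas of self-avoiding polygons: assembly.
-/

set_option autoImplicit false

namespace Pool.Agent.N949.PG

open Pool.Agent.N941.SP
open Pool.Agent.H122R3.SX (Adj)

/-- the time step is small -/
theorem step_small {δ : ℝ} (hδ : 0 < δ) {n : ℕ} (hn : ⌈1 / δ⌉₊ + 1 ≤ n) :
    1 / ((2 * n : ℕ) : ℝ) ≤ δ := by
  have hnr : (0 : ℝ) < ((2 * n : ℕ) : ℝ) := by exact_mod_cast (by omega : 0 < 2 * n)
  rw [div_le_iff₀ hnr]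
  have h1 := Nat.le_ceil (1 / δ)
  have h2 : (⌈1 / δ⌉₊ : ℝ) ≤ ((2 * n : ℕ) : ℝ) := by exact_mod_cast (by omega : ⌈1 / δ⌉₊ ≤ 2 * n)
  rw [div_le_iff₀ hδ] at h1
  nlinarith

theorem shape_lower (hT : S_TWO) (hC : S_CYC) {γ : C(unitInterval, ℂ)} (hγ : γ ∈ Jordan) {ε : ℝ}
    (hε : 0 < ε) : ∃ (K : ℝ) (n₀ : ℕ), ∀ n ≥ n₀,
      Real.exp (-(K * Real.log n ^ 3)) ≤ prob n (fun f => ‖Y (2 * n) f - γ‖ ≤ ε) := by
  obtain ⟨η, hηd⟩ : ∃ η, η = min (ε / 6) (1 / 4) := ⟨_, rfl⟩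
  have hη : 0 < η := by rw [hηd]; positivity
  have hη1 : η ≤ ε / 6 := by rw [hηd]; exact min_le_left _ _
  have hη2 : η ≤ 1 / 4 := by rw [hηd]; exact min_le_right _ _
  obtain ⟨δ, hδ, huc⟩ := uc γ (ε := η / 3) (by positivity)
  refine lowerQ hT hC hγ (fun n f => ‖Y (2 * n) f - γ‖ ≤ ε) (ε := η / 3) (n₁ := ⌈1 / δ⌉₊ + 1)
    (by positivity) ?_
  intro n hn f S hf hS hS1 hcl
  have hcurve := curve_close (by omega : 1 ≤ 2 * n) hf hS hS1 hη huc (step_small hδ hn) hcl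
  have hnorm := normalize hS hη.le hη2 hγ.1 hγ.2.2.2 hcurve
  rw [ContinuousMap.norm_le _ hε.le]
  intro t
  rw [ContinuousMap.sub_apply]
  exact (hnorm t).trans (by linarith)

/-- the ellipse as a closed curve -/
noncomputable def ellc (h : ℝ) : C(unitInterval, ℂ) where
  toFun t := ell h t
  continuous_toFun := by
    unfold ell
    have h1 : Continuous fun t : unitInterval => (Real.cos (2 * Real.pi * t) - 1) / 2 := by
      fun_prop
    have h2 : Continuous fun t : unitInterval => h / 2 * Real.sin (2 * Real.pi * t) := by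
      fun_prop
    have h3 : (fun t : unitInterval => (⟨(Real.cos (2 * Real.pi * t) - 1) / 2,
        h / 2 * Real.sin (2 * Real.pi * t)⟩ : ℂ)) = fun t : unitInterval =>
        (((Real.cos (2 * Real.pi * t) - 1) / 2 : ℝ) : ℂ) +
          ((h / 2 * Real.sin (2 * Real.pi * t) : ℝ) : ℂ) * Complex.I := by
      funext t
      apply Complex.ext
      · simp only [Complex.add_re, Complex.mul_re, Complex.ofReal_re, Complex.ofReal_im,
          Complex.I_re, Complex.I_im]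
        ring
      · simp only [Complex.add_im, Complex.mul_im, Complex.ofReal_re, Complex.ofReal_im,
          Complex.I_re, Complex.I_im]
        ring
    rw [h3]
    fun_prop

theorem ellc_apply (h : ℝ) (t : unitInterval) : ellc h t = ell h t := rfl

theorem ell_dist {h : ℝ} (h0 : 0 < h) (h1 : h ≤ 1) (s t : ℝ) : ‖ell h s - ell h t‖ ≤ 1 := by
  have e : ‖ell h s - ell h t‖ ^ 2 ≤ 1 := by
    rw [← Complex.normSq_eq_norm_sq, Complex.normSq_apply]
    unfold ell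
    simp only [Complex.sub_re, Complex.sub_im]
    obtain ⟨a, ha⟩ : ∃ a, a = 2 * Real.pi * s := ⟨_, rfl⟩
    obtain ⟨b, hb⟩ : ∃ b, b = 2 * Real.pi * t := ⟨_, rfl⟩
    rw [← ha, ← hb]
    have c1 := Real.sin_sq_add_cos_sq a
    have c2 := Real.sin_sq_add_cos_sq b
    have c3 : h ^ 2 ≤ 1 := by nlinarith
    have c4 : 0 ≤ (Real.sin a - Real.sin b) ^ 2 := sq_nonneg _
    have c5 : h ^ 2 * (Real.sin a - Real.sin b) ^ 2 ≤ (Real.sin a - Real.sin b) ^ 2 := by nlinarith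
    have c6 : 0 ≤ (Real.sin a + Real.sin b) ^ 2 := sq_nonneg _
    have c7 : 0 ≤ (Real.cos a + Real.cos b) ^ 2 := sq_nonneg _
    nlinarith
  have := norm_nonneg (ell h s - ell h t)
  nlinarith

theorem ell_jordan {h : ℝ} (h0 : 0 < h) (h1 : h ≤ 1) : ellc h ∈ Jordan := by
  refine ⟨?_, ?_, ?_, ?_⟩
  · rw [ellc_apply]
    unfold ell
    simp
    rfl
  · rw [ellc_apply]
    unfold ell
    simp
    rfl
  · intro s t hs ht hst
    rw [ellc_apply, ellc_apply] at hst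
    unfold ell at hst
    rw [Complex.mk.injEq] at hst
    have e1 : Real.cos (2 * Real.pi * s) = Real.cos (2 * Real.pi * t) := by linarith [hst.1]
    have e2 : Real.sin (2 * Real.pi * s) = Real.sin (2 * Real.pi * t) :=
      mul_left_cancel₀ (by positivity : h / 2 ≠ 0) hst.2
    have hs1 : (s : ℝ) < 1 := lt_of_le_of_ne s.2.2 fun hc => hs (Subtype.ext hc)
    have ht1 : (t : ℝ) < 1 := lt_of_le_of_ne t.2.2 fun hc => ht (Subtype.ext hc)
    have hs0 := s.2.1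
    have ht0 := t.2.1
    have e3 : Real.cos (2 * Real.pi * s - 2 * Real.pi * t) = 1 := by
      rw [Real.cos_sub, e1, e2]
      nlinarith [Real.sin_sq_add_cos_sq (2 * Real.pi * t)]
    rw [Real.cos_eq_one_iff] at e3
    obtain ⟨k, hk⟩ := e3
    have hpi := Real.pi_pos
    have hk' : (k : ℝ) = s - t := by
      have h2 : (k : ℝ) * (2 * Real.pi) = (s - t) * (2 * Real.pi) := by rw [hk]; ring
      exact mul_right_cancel₀ (by positivity) h2
    have hk1 : (k : ℝ) < 1 := by rw [hk']; linarith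
    have hk2 : (-1 : ℝ) < k := by rw [hk']; linarith
    have hk3 : k = 0 := by
      have : k < 1 := by exact_mod_cast hk1
      have : -1 < k := by exact_mod_cast hk2
      omega
    rw [hk3, Int.cast_zero] at hk'
    exact Subtype.ext (by linarith)
  · apply le_antisymm
    · apply Metric.diam_le_of_forall_dist_le zero_le_one
      rintro _ ⟨s, rfl⟩ _ ⟨t, rfl⟩
      rw [dist_eq_norm]
      exact ell_dist h0 h1 s t
    · have hb : Bornology.IsBounded (Set.range (ellc h)) :=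
        (isCompact_range (ellc h).continuous).isBounded
      have h2 := Metric.dist_le_diam_of_mem hb ⟨0, rfl⟩ ⟨⟨1 / 2, by norm_num, by norm_num⟩, rfl⟩
      refine le_trans ?_ h2
      rw [ellc_apply, ellc_apply, dist_eq_norm]
      unfold ell
      have e1 : 2 * Real.pi * (1 / 2) = Real.pi := by ring
      simp only [Set.Icc.coe_zero, mul_zero, Real.cos_zero, Real.sin_zero, sub_self, zero_div]
      rw [e1, Real.cos_pi, Real.sin_pi]
      have e2 : (⟨0, 0⟩ - ⟨(-1 - 1) / 2, h / 2 * 0⟩ : ℂ) = 1 := by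
        apply Complex.ext <;> simp <;> norm_num
      rw [e2, norm_one]

theorem area_lower (hT : S_TWO) (hC : S_CYC) (hE : S_ELL) {a ε : ℝ} (ha : 0 < a)
    (ha1 : a ≤ Real.pi / 4) (hε : 0 < ε) : ∃ (K : ℝ) (n₀ : ℕ), ∀ n ≥ n₀,
      Real.exp (-(K * Real.log n ^ 3)) ≤ prob n (fun f =>
        |(area (2 * n) f : ℝ) / Metric.diam (Set.range (curve (2 * n) f)) ^ 2 - a| ≤ ε) := by
  have hpi := Real.pi_pos
  obtain ⟨h, hh⟩ : ∃ h, h = 4 * a / Real.pi := ⟨_, rfl⟩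
  have hh0 : 0 < h := by rw [hh]; positivity
  have hh1 : h ≤ 1 := by rw [hh, div_le_one hpi]; linarith
  have hha : Real.pi * h / 4 = a := by rw [hh]; field_simp
  have hJ := ell_jordan hh0 hh1
  obtain ⟨η0, hη0, hell⟩ := hE h hh0 hh1 (ε / 8) (by positivity)
  obtain ⟨η, hηd⟩ : ∃ η, η = min (min η0 (1 / 4)) (ε / 64) := ⟨_, rfl⟩
  have hη : 0 < η := by rw [hηd]; positivity
  have hη1 : η ≤ η0 := by rw [hηd]; exact (min_le_left _ _).trans (min_le_left _ _)
  have hη2 : η ≤ 1 / 4 := by rw [hηd]; exact (min_le_left _ _).trans (min_le_right _ _)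
  have hη3 : η ≤ ε / 64 := by rw [hηd]; exact min_le_right _ _
  obtain ⟨δ, hδ, huc⟩ := uc (ellc h) (ε := η / 3) (by positivity)
  refine lowerQ hT hC hJ (fun n f => |(area (2 * n) f : ℝ) /
    Metric.diam (Set.range (curve (2 * n) f)) ^ 2 - a| ≤ ε) (ε := η / 3)
    (n₁ := ⌈1 / δ⌉₊ + 2) (by positivity) ?_
  intro n hn f S hf hS hS1 hcl
  have hcurve := curve_close (by omega : 1 ≤ 2 * n) hf hS hS1 hη huc (step_small hδ (by omega)) hcl
  have hdiam := diam_close hS hη.le hJ.2.2.2 hcurve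
  have harea := hell (2 * n) f S (by omega) hf (by
    refine le_trans ?_ hS1
    apply one_div_le_one_div_of_le (by positivity)
    linarith) (by
    intro k hk
    have h1 := hcl k hk
    have hn0 : (0 : ℝ) < ((2 * n : ℕ) : ℝ) := by exact_mod_cast (by omega : 0 < 2 * n)
    have h2 : (k : ℝ) / (2 * n : ℕ) ∈ Set.Icc (0 : ℝ) 1 := by
      refine ⟨by positivity, ?_⟩
      rw [div_le_one hn0]
      exact_mod_cast hk.le
    rw [cv_of_mem _ h2, ellc_apply] at h1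
    refine h1.trans ?_
    have : 0 < η := hη
    nlinarith)
  rw [hha] at harea
  obtain ⟨D, hD⟩ : ∃ D, D = Metric.diam (Set.range (curve (2 * n) f)) := ⟨_, rfl⟩
  rw [← hD] at hdiam ⊢
  obtain ⟨A, hA⟩ : ∃ A : ℝ, A = (area (2 * n) f : ℝ) := ⟨_, rfl⟩
  rw [← hA] at harea ⊢
  have hA0 : 0 ≤ A := by rw [hA]; positivity
  -- ratio of the diameters
  obtain ⟨ρ, hρ⟩ : ∃ ρ, ρ = D / S := ⟨_, rfl⟩
  have hDρ : D = ρ * S := by rw [hρ]; field_simp
  have hρ1 : |ρ - 1| ≤ 2 * η := by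
    have e : ρ - 1 = (D - S) / S := by rw [hρ]; field_simp
    rw [e, abs_div, abs_of_pos hS, div_le_iff₀ hS]
    exact hdiam
  rw [abs_le] at hρ1
  have hρ0 : 1 / 2 ≤ ρ := by linarith
  obtain ⟨x, hx⟩ : ∃ x, x = A / S ^ 2 := ⟨_, rfl⟩
  have hx0 : 0 ≤ x := by rw [hx]; positivity
  rw [← hx] at harea
  have e1 : A / D ^ 2 = x / ρ ^ 2 := by
    rw [hx, hDρ]
    have : ρ ≠ 0 := by positivity
    field_simp
  rw [e1]
  have hρ2 : (0 : ℝ) < ρ ^ 2 := by positivity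
  have e2 : x / ρ ^ 2 - a = ((x - a) + a * (1 - ρ ^ 2)) / ρ ^ 2 := by
    field_simp
    ring
  have ha2 : a ≤ 1 := by linarith [Real.pi_le_four]
  have h3 : |x - a + a * (1 - ρ ^ 2)| ≤ ε / 8 + 5 * η := by
    refine (abs_add_le _ _).trans ?_
    have h4 : |a * (1 - ρ ^ 2)| ≤ 5 * η := by
      rw [abs_mul, abs_of_pos ha]
      have h5 : |1 - ρ ^ 2| ≤ 5 * η := by
        rw [abs_le]
        constructor <;> nlinarith
      calc a * |1 - ρ ^ 2| ≤ 1 * (5 * η) := by gcongr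
        _ = _ := one_mul _
    linarith
  rw [e2, abs_div, abs_of_pos hρ2, div_le_iff₀ hρ2]
  refine h3.trans ?_
  have h6 : 1 / 4 ≤ ρ ^ 2 := by nlinarith
  have h7 := mul_le_mul_of_nonneg_left h6 hε.le
  linarith

/-- a bound for all pairs of vertices -/
theorem area_upper (hA : S_AREA) {m : ℕ} (hm : 4 ≤ m) {f : ZMod m → ℤ × ℤ} (hf : IsLoop m f) :
    (area m f : ℝ) ≤ Real.pi / 4 * Metric.diam (Set.range (curve m f)) ^ 2 := by
  have hne : NeZero m := ⟨by omega⟩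
  refine hA m f _ hm hf fun i j => ?_
  have hmr : (0 : ℝ) < m := by exact_mod_cast (by omega : 0 < m)
  have hb : Bornology.IsBounded (Set.range (curve m f)) :=
    (isCompact_range (curve m f).continuous).isBounded
  have key : ∀ i : ZMod m, ∃ t : unitInterval, curve m f t = pt (f i) := by
    intro i
    have hi := ZMod.val_lt i
    have h1 : ((i.val : ℕ) : ℝ) / m ∈ Set.Icc (0 : ℝ) 1 := by
      refine ⟨by positivity, ?_⟩
      rw [div_le_one hmr]
      exact_mod_cast hi.le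
    have h2 : (m : ℝ) * (((i.val : ℕ) : ℝ) / m) = i.val := by field_simp
    refine ⟨⟨_, h1⟩, ?_⟩
    rw [curve_eq hf.1 ⟨_, h1⟩ (k := i.val) hi (by simp only; rw [h2]) (by simp only; rw [h2]; linarith)]
    simp only
    rw [h2, sub_self, Complex.ofReal_zero, zero_mul, add_zero, ZMod.natCast_zmod_val]
  obtain ⟨s, hs⟩ := key i
  obtain ⟨t, ht⟩ := key j
  rw [← hs, ← ht, ← dist_eq_norm]
  exact Metric.dist_le_diam_of_mem hb ⟨s, rfl⟩ ⟨t, rfl⟩

theorem final (hT : S_TWO) (hC : S_CYC) (hJ : S_JOR) (hE : S_ELL) (hA : S_AREA) :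
    (∀ γ ∈ closure Jordan, ∀ ε : ℝ, 0 < ε → ∃ (K : ℝ) (n₀ : ℕ), ∀ n ≥ n₀,
      Real.exp (-(K * Real.log n ^ 3)) ≤ prob n (fun f => ‖Y (2 * n) f - γ‖ ≤ ε)) ∧
    (∀ γ ∉ closure Jordan, ∃ ε : ℝ, 0 < ε ∧ ∀ n ≥ 2,
      prob n (fun f => ‖Y (2 * n) f - γ‖ ≤ ε) = 0) ∧
    (∀ a : ℝ, 0 ≤ a → a ≤ Real.pi / 4 → ∀ ε : ℝ, 0 < ε → ∃ (K : ℝ) (n₀ : ℕ), ∀ n ≥ n₀,
      Real.exp (-(K * Real.log n ^ 3)) ≤ prob n (fun f =>
        |(area (2 * n) f : ℝ) / Metric.diam (Set.range (curve (2 * n) f)) ^ 2 - a| ≤ ε)) ∧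
    ∀ n ≥ 2, ∀ f : ZMod (2 * n) → ℤ × ℤ, IsLoop (2 * n) f →
      (area (2 * n) f : ℝ) ≤ Real.pi / 4 * Metric.diam (Set.range (curve (2 * n) f)) ^ 2 := by
  refine ⟨?_, ?_, ?_, fun n hn f hf => area_upper hA (by omega) hf⟩
  · intro γ hγ ε hε
    rw [Metric.mem_closure_iff] at hγ
    obtain ⟨γ', hγ', hd⟩ := hγ (ε / 2) (by positivity)
    obtain ⟨K, n₀, hK⟩ := shape_lower hT hC hγ' (half_pos hε)
    refine ⟨K, n₀ + 1, fun n hn => (hK n (by omega)).trans ?_⟩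
    unfold prob
    have hfin := (loops_finite (2 * n) (by omega)).subset
      (t := {f | IsLoop (2 * n) f ∧ ‖Y (2 * n) f - γ‖ ≤ ε}) fun f hf => hf.1
    have hsub : {f | IsLoop (2 * n) f ∧ ‖Y (2 * n) f - γ'‖ ≤ ε / 2} ⊆
        {f | IsLoop (2 * n) f ∧ ‖Y (2 * n) f - γ‖ ≤ ε} := by
      rintro f ⟨h1, h2⟩
      refine ⟨h1, ?_⟩
      rw [dist_eq_norm] at hd
      have e : Y (2 * n) f - γ = (Y (2 * n) f - γ') - (γ - γ') := by abel
      rw [e]
      exact (norm_sub_le _ _).trans (by linarith)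
    have := Set.ncard_le_ncard hsub hfin
    gcongr
  · intro γ hγ
    rw [Metric.mem_closure_iff] at hγ
    push Not at hγ
    obtain ⟨ε, hε, hd⟩ := hγ
    refine ⟨ε / 2, by positivity, fun n hn => ?_⟩
    have h0 : {f | IsLoop (2 * n) f ∧ ‖Y (2 * n) f - γ‖ ≤ ε / 2} = ∅ := by
      rw [Set.eq_empty_iff_forall_notMem]
      rintro f ⟨h1, h2⟩
      have h3 := hd (Y (2 * n) f) (hJ (2 * n) f (by omega) h1)
      rw [dist_comm, dist_eq_norm] at h3
      linarith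
    unfold prob
    rw [h0, Set.ncard_empty, Nat.cast_zero, zero_div]
  · intro a ha0 ha1 ε hε
    have hpi := Real.pi_pos
    obtain ⟨a', h1, h2, h3⟩ : ∃ a' : ℝ, 0 < a' ∧ a' ≤ Real.pi / 4 ∧ |a' - a| ≤ ε / 2 := by
      rcases le_or_gt (ε / 2) a with h | h
      · exact ⟨a, by linarith, ha1, by rw [sub_self, abs_zero]; positivity⟩
      · refine ⟨min (ε / 2) (Real.pi / 4), by positivity, min_le_right _ _, ?_⟩
        rw [abs_le]
        have c1 : min (ε / 2) (Real.pi / 4) ≤ ε / 2 := min_le_left _ _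
        have c2 : a ≤ min (ε / 2) (Real.pi / 4) := le_min h.le ha1
        constructor <;> linarith
    obtain ⟨K, n₀, hK⟩ := area_lower hT hC hE h1 h2 (half_pos hε)
    refine ⟨K, n₀ + 1, fun n hn => (hK n (by omega)).trans ?_⟩
    unfold prob
    have hfin := (loops_finite (2 * n) (by omega)).subset
      (t := {f | IsLoop (2 * n) f ∧ |(area (2 * n) f : ℝ) /
        Metric.diam (Set.range (curve (2 * n) f)) ^ 2 - a| ≤ ε}) fun f hf => hf.1
    have hsub : {f | IsLoop (2 * n) f ∧ |(area (2 * n) f : ℝ) /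
        Metric.diam (Set.range (curve (2 * n) f)) ^ 2 - a'| ≤ ε / 2} ⊆
        {f | IsLoop (2 * n) f ∧ |(area (2 * n) f : ℝ) /
        Metric.diam (Set.range (curve (2 * n) f)) ^ 2 - a| ≤ ε} := by
      rintro f ⟨h4, h5⟩
      refine ⟨h4, ?_⟩
      rw [abs_le] at *
      constructor <;> linarith
    have := Set.ncard_le_ncard hsub hfin
    gcongr

end Pool.Agent.N949.PG
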