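import Pool.Agent.N949.PG.Sup

/-!
Lower bounds for the probabilities of events implied by closeness to a Jordan curve.
-/

set_option autoImplicit false

namespace Pool.Agent.N949.PG

open Pool.Agent.N941.SP
open Pool.Agent.H122R3.SX (Adj)

/-- The proportion of the self-avoiding polygons of perimeter `2 n` (rooted, oriented) in `E`. -/
noncomputable def prob (n : ℕ) (E : (ZMod (2 * n) → ℤ × ℤ) → Prop) : ℝ :=
  ({f : ZMod (2 * n) → ℤ × ℤ | IsLoop (2 * n) f ∧ E f}.ncard : ℝ) /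
    ({f : ZMod (2 * n) → ℤ × ℤ | IsLoop (2 * n) f}.ncard : ℝ)

/-- closeness to `S γ` at the times `k / m` -/
def Cl (γ : C(unitInterval, ℂ)) (ε S : ℝ) (m : ℕ) (f : ZMod m → ℤ × ℤ) : Prop :=
  ∀ k : ℕ, k < m → ‖pt (f (k : ZMod m)) - (S : ℂ) * cv γ ((k : ℝ) / (m : ℕ))‖ ≤ ε * S

theorem lowerQ (hT : S_TWO) (hC : S_CYC) {γ : C(unitInterval, ℂ)} (hγ : γ ∈ Jordan)
    (Q : ∀ n : ℕ, (ZMod (2 * n) → ℤ × ℤ) → Prop) {ε : ℝ} {n₁ : ℕ} (hε : 0 < ε)
    (hQ : ∀ n ≥ n₁, ∀ (f : ZMod (2 * n) → ℤ × ℤ) (S : ℝ), IsLoop (2 * n) f → 0 < S → 1 / ε ≤ S →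
      Cl γ ε S (2 * n) f → Q n f) :
    ∃ (K : ℝ) (n₀ : ℕ), ∀ n ≥ n₀, Real.exp (-(K * Real.log n ^ 3)) ≤ prob n (Q n) := by
  obtain ⟨K, n₀, hK⟩ := psupp hT hC hγ hε
  refine ⟨K, n₀ + n₁ + 1, fun n hn => ?_⟩
  obtain ⟨S, hS, hS1, hpos, hcount⟩ := hK n (by omega)
  have hfin := loops_finite (2 * n) (by omega)
  have hsub : {f : ZMod (2 * n) → ℤ × ℤ | IsLoop (2 * n) f ∧ ∀ k : ℕ, k < 2 * n →
      ‖pt (f (k : ZMod (2 * n))) - (S : ℂ) * cv γ ((k : ℝ) / (2 * n : ℕ))‖ ≤ ε * S} ⊆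
      {f : ZMod (2 * n) → ℤ × ℤ | IsLoop (2 * n) f ∧ Q n f} := by
    rintro f ⟨h1, h2⟩
    exact ⟨h1, hQ n (by omega) f S h1 hS hS1 h2⟩
  have hle := Set.ncard_le_ncard hsub (hfin.subset fun f hf => hf.1)
  have hle' : ({f : ZMod (2 * n) → ℤ × ℤ | IsLoop (2 * n) f ∧ ∀ k : ℕ, k < 2 * n →
      ‖pt (f (k : ZMod (2 * n))) - (S : ℂ) * cv γ ((k : ℝ) / (2 * n : ℕ))‖ ≤ ε * S}.ncard : ℝ) ≤
      ({f : ZMod (2 * n) → ℤ × ℤ | IsLoop (2 * n) f ∧ Q n f}.ncard : ℝ) := by exact_mod_cast hle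
  have h1 := hcount.trans hle'
  unfold prob
  rcases Nat.eq_zero_or_pos {f : ZMod (2 * n) → ℤ × ℤ | IsLoop (2 * n) f}.ncard with h0 | h0
  · exfalso
    have h2 := Set.ncard_le_ncard (s := {f : ZMod (2 * n) → ℤ × ℤ | IsLoop (2 * n) f ∧
      ∀ k : ℕ, k < 2 * n → ‖pt (f (k : ZMod (2 * n))) - (S : ℂ) *
        cv γ ((k : ℝ) / (2 * n : ℕ))‖ ≤ ε * S})
      (t := {f : ZMod (2 * n) → ℤ × ℤ | IsLoop (2 * n) f}) (fun f hf => hf.1) hfin
    rw [h0] at h2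
    have h3 : (0 : ℝ) < 0 := by
      refine lt_of_lt_of_le hpos ?_
      exact_mod_cast h2
    exact lt_irrefl _ h3
  · rw [le_div_iff₀ (by exact_mod_cast h0)]
    exact h1

theorem curve_eq {m : ℕ} {f : ZMod m → ℤ × ℤ} (h0 : f 0 = 0) (t : unitInterval) {k : ℕ}
    (hk : k < m) (h1 : (k : ℝ) ≤ m * t) (h2 : (m : ℝ) * t ≤ k + 1) :
    curve m f t = pt (f (k : ZMod m)) + ((m * (t : ℝ) - k : ℝ) : ℂ) *
      (pt (f ((k + 1 : ℕ) : ZMod m)) - pt (f (k : ZMod m))) := by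
  have e : curve m f t = ∑ j ∈ Finset.range m, ((cl ((m : ℝ) * t - j) : ℝ) : ℂ) *
      (pt (f ((j + 1 : ℕ) : ZMod m)) - pt (f (j : ZMod m))) := rfl
  rw [e, interp (fun j => pt (f (j : ZMod m))) h1 h2 hk]
  have h3 : pt (f ((0 : ℕ) : ZMod m)) = 0 := by
    rw [Nat.cast_zero, h0]
    simp [pt]
  rw [h3, sub_zero]

theorem loop_adj {m : ℕ} {f : ZMod m → ℤ × ℤ} (hf : IsLoop m f) (i : ZMod m) :
    ‖pt (f (i + 1)) - pt (f i)‖ ≤ 1 := by
  have h1 := hf.2.2 i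
  have h2 := pt_norm_le (f (i + 1) - f i)
  rw [pt_sub] at h2
  refine h2.trans ?_
  simp only [Prod.fst_sub, Prod.snd_sub]
  exact_mod_cast h1.le

/-- closeness of the curves -/
theorem curve_close {γ : C(unitInterval, ℂ)} {η δ S : ℝ} {m : ℕ} {f : ZMod m → ℤ × ℤ}
    (hm : 1 ≤ m) (hf : IsLoop m f) (hS : 0 < S) (hS1 : 1 / (η / 3) ≤ S) (hη : 0 < η)
    (huc : ∀ s t : unitInterval, |(s : ℝ) - t| ≤ δ → ‖γ s - γ t‖ ≤ η / 3)
    (hmδ : 1 / (m : ℝ) ≤ δ) (hcl : Cl γ (η / 3) S m f) (t : unitInterval) :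
    ‖curve m f t - (S : ℂ) * γ t‖ ≤ η * S := by
  have hmr : (0 : ℝ) < m := by exact_mod_cast hm
  obtain ⟨k, hk, h1, h2⟩ := exists_block hm t
  rw [curve_eq hf.1 t hk h1 h2]
  have c1 := hcl k hk
  have c2 : ‖cv γ ((k : ℝ) / m) - cv γ t‖ ≤ η / 3 := by
    apply cv_close huc
    refine le_trans ?_ hmδ
    rw [abs_le]
    have e1 : (k : ℝ) / m ≤ t := by
      rw [div_le_iff₀ hmr]; linarith
    have e2 : (t : ℝ) ≤ k / m + 1 / m := by
      rw [← add_div, le_div_iff₀ hmr]; linarith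
    constructor
    · linarith
    · have : 0 < 1 / (m : ℝ) := by positivity
      linarith
  have c3 : cv γ t = γ t := cv_of_mem γ t.2
  have c4 : ‖((m * (t : ℝ) - k : ℝ) : ℂ) * (pt (f ((k + 1 : ℕ) : ZMod m)) -
      pt (f (k : ZMod m)))‖ ≤ 1 := by
    rw [norm_mul, Complex.norm_real, Real.norm_eq_abs]
    have d1 : |(m : ℝ) * t - k| ≤ 1 := by rw [abs_le]; constructor <;> linarith
    have d2 := loop_adj hf (k : ZMod m)
    rw [Nat.cast_add, Nat.cast_one]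
    calc |(m : ℝ) * t - k| * ‖pt (f ((k : ZMod m) + 1)) - pt (f (k : ZMod m))‖ ≤ 1 * 1 := by gcongr
      _ = 1 := one_mul 1
  have c5 : 1 ≤ η / 3 * S := by
    rw [div_le_iff₀ (by positivity)] at hS1
    linarith
  have c6 : ‖(S : ℂ) * (cv γ ((k : ℝ) / m) - γ t)‖ ≤ S * (η / 3) := by
    rw [norm_mul, Complex.norm_real, Real.norm_eq_abs, abs_of_pos hS, ← c3]
    gcongr
  have e : pt (f (k : ZMod m)) + ((m * (t : ℝ) - k : ℝ) : ℂ) *
      (pt (f ((k + 1 : ℕ) : ZMod m)) - pt (f (k : ZMod m))) - (S : ℂ) * γ t =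
      (pt (f (k : ZMod m)) - (S : ℂ) * cv γ ((k : ℝ) / m)) +
      (S : ℂ) * (cv γ ((k : ℝ) / m) - γ t) +
      ((m * (t : ℝ) - k : ℝ) : ℂ) * (pt (f ((k + 1 : ℕ) : ZMod m)) - pt (f (k : ZMod m))) := by
    ring
  rw [e]
  refine norm_add₃_le.trans ?_
  linarith

/-- comparison of diameters -/
theorem diam_close {f g : C(unitInterval, ℂ)} {S η : ℝ} (hS : 0 < S) (hη0 : 0 ≤ η)
    (hgd : Metric.diam (Set.range g) = 1) (hfg : ∀ t, ‖f t - (S : ℂ) * g t‖ ≤ η * S) :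
    |Metric.diam (Set.range f) - S| ≤ 2 * η * S := by
  obtain ⟨D, hD⟩ : ∃ D, D = Metric.diam (Set.range f) := ⟨_, rfl⟩
  have hfb : Bornology.IsBounded (Set.range f) := (isCompact_range f.continuous).isBounded
  have hgb : Bornology.IsBounded (Set.range g) := (isCompact_range g.continuous).isBounded
  have hgdist : ∀ s t, ‖g s - g t‖ ≤ 1 := by
    intro s t
    rw [← hgd, ← dist_eq_norm]
    exact Metric.dist_le_diam_of_mem hgb ⟨s, rfl⟩ ⟨t, rfl⟩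
  have hfdist : ∀ s t, ‖f s - f t‖ ≤ D := by
    intro s t
    rw [hD, ← dist_eq_norm]
    exact Metric.dist_le_diam_of_mem hfb ⟨s, rfl⟩ ⟨t, rfl⟩
  have hup : D ≤ S + 2 * η * S := by
    rw [hD]
    apply Metric.diam_le_of_forall_dist_le (by positivity)
    rintro _ ⟨s, rfl⟩ _ ⟨t, rfl⟩
    rw [dist_eq_norm]
    have e : f s - f t = (f s - (S : ℂ) * g s) - (f t - (S : ℂ) * g t) + (S : ℂ) * (g s - g t) := by
      ring
    rw [e]
    have h1 : ‖(S : ℂ) * (g s - g t)‖ ≤ S * 1 := by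
      rw [norm_mul, Complex.norm_real, Real.norm_eq_abs, abs_of_pos hS]
      exact mul_le_mul_of_nonneg_left (hgdist s t) hS.le
    have h2 := norm_sub_le (f s - (S : ℂ) * g s) (f t - (S : ℂ) * g t)
    have h3 := norm_add_le ((f s - (S : ℂ) * g s) - (f t - (S : ℂ) * g t)) ((S : ℂ) * (g s - g t))
    have h4 := hfg s
    have h5 := hfg t
    linarith
  have hlow : S ≤ D + 2 * η * S := by
    have h1 : (1 : ℝ) ≤ (D + 2 * η * S) / S := by
      rw [← hgd]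
      have hD0 : 0 ≤ D := by rw [hD]; exact Metric.diam_nonneg
      apply Metric.diam_le_of_forall_dist_le (by positivity)
      rintro _ ⟨s, rfl⟩ _ ⟨t, rfl⟩
      rw [dist_eq_norm, le_div_iff₀ hS]
      have e : (S : ℂ) * (g s - g t) =
          (f s - f t) - ((f s - (S : ℂ) * g s) - (f t - (S : ℂ) * g t)) := by ring
      have h1 : ‖(S : ℂ) * (g s - g t)‖ = ‖g s - g t‖ * S := by
        rw [norm_mul, Complex.norm_real, Real.norm_eq_abs, abs_of_pos hS, mul_comm]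
      rw [← h1, e]
      have h2 := norm_sub_le (f s - (S : ℂ) * g s) (f t - (S : ℂ) * g t)
      have h3 := norm_sub_le (f s - f t) ((f s - (S : ℂ) * g s) - (f t - (S : ℂ) * g t))
      have h4 := hfg s
      have h5 := hfg t
      have h6 := hfdist s t
      linarith
    rw [le_div_iff₀ hS] at h1
    linarith
  rw [← hD, abs_le]
  constructor <;> linarith

end Pool.Agent.N949.PG
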