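import Pool.Agent.N949.PG.Cnt

/-!
The number of self-avoiding polygons which follow a given Jordan curve: quasi-polynomial bound.
-/

set_option autoImplicit false

namespace Pool.Agent.N949.PG

open Pool.Agent.N941.SP
open Finset Real
open Pool.Agent.H122R3.SX (Adj V W X pos Saw c walks fs mem_fs fw fw_inj ncard_walks
  walks_finite pos_append pos_nil)
open Pool.Agent.TH303.SX2 (Bd)

/-- **Polygons following a Jordan curve.** -/
theorem psupp (hT : S_TWO) (hC : S_CYC) {γ : C(unitInterval, ℂ)} (hγ : γ ∈ Jordan) {ε : ℝ}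
    (hε : 0 < ε) : ∃ (K : ℝ) (n₀ : ℕ), ∀ n ≥ n₀, ∃ S : ℝ, 0 < S ∧ 1 / ε ≤ S ∧
      0 < ({f : ZMod (2 * n) → ℤ × ℤ | IsLoop (2 * n) f ∧ ∀ k : ℕ, k < 2 * n →
          ‖pt (f (k : ZMod (2 * n))) - (S : ℂ) * cv γ ((k : ℝ) / (2 * n : ℕ))‖ ≤
            ε * S}.ncard : ℝ) ∧
      exp (-(K * log n ^ 3)) * ({f : ZMod (2 * n) → ℤ × ℤ | IsLoop (2 * n) f}.ncard : ℝ) ≤
        ({f : ZMod (2 * n) → ℤ × ℤ | IsLoop (2 * n) f ∧ ∀ k : ℕ, k < 2 * n →
          ‖pt (f (k : ZMod (2 * n))) - (S : ℂ) * cv γ ((k : ℝ) / (2 * n : ℕ))‖ ≤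
            ε * S}.ncard : ℝ) := by
  obtain ⟨μ, K, hB⟩ := Pool.Agent.TH303.SX2.exists_Bd
  obtain ⟨Kb, hKb, hb⟩ := exists_Kb
  have hμ0 : 0 < μ := by linarith [hB.one]
  have hlμ : 0 ≤ log μ := log_nonneg hB.one
  have hK2 := Pool.Agent.TH303.SX2.K2_nonneg hB.Kn
  have hKn := hB.Kn
  obtain ⟨C, hC⟩ : ∃ C, C = 12 * (4 * Pool.Agent.TH303.SX2.K2 K + 2 * K + Kb + 22) +
      45 * (Kb + 6) + 10 * log μ := ⟨_, rfl⟩
  have hC0 : 0 ≤ C := by rw [hC]; positivity
  obtain ⟨δ1, hδ1, huc⟩ := uc γ (half_pos hε)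
  obtain ⟨εa, hεad⟩ : ∃ εa, εa = min (ε / 6) (δ1 / 2) := ⟨_, rfl⟩
  have hεa : 0 < εa := by rw [hεad]; positivity
  have hεa1 : εa ≤ ε / 6 := by rw [hεad]; exact min_le_left _ _
  have hεa2 : εa ≤ δ1 / 2 := by rw [hεad]; exact min_le_right _ _
  rename_i hCY
  obtain ⟨L, R, P, hL, hR1, hLa, hPL, hadj, hinj, hP⟩ := hCY γ hγ εa hεa
  have hR : 0 < R := lt_of_lt_of_le (by positivity) hR1
  have hev := even_length hPL hadj
  obtain ⟨M, hM⟩ : ∃ M : ℕ, M = 416 + ⌈2 / εa⌉₊ := ⟨_, rfl⟩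
  refine ⟨C * L + 4 * K + 2 * L + 5 * L * log μ, L * (M + 4), fun n hn => ?_⟩
  obtain ⟨q, hq⟩ : ∃ q, q = 2 * n / L := ⟨_, rfl⟩
  obtain ⟨r, hr⟩ : ∃ r, r = 2 * n % L := ⟨_, rfl⟩
  have hdm := Nat.div_add_mod (2 * n) L
  have hmod := Nat.mod_lt (2 * n) (by omega : 0 < L)
  rw [← hq, ← hr] at hdm
  rw [← hr] at hmod
  have hqge : M + 4 ≤ q := by
    rw [hq, Nat.le_div_iff_mul_le (by omega)]
    rw [mul_comm]
    omega
  obtain ⟨m, hm⟩ : ∃ m, m = q - 4 := ⟨_, rfl⟩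
  have hqm : q = m + 4 := by omega
  have hmM : M ≤ m := by omega
  have hm416 : 416 ≤ m := by omega
  obtain ⟨j, hj⟩ : ∃ j, j = r / 2 := ⟨_, rfl⟩
  have hr2 : r = 2 * j := by
    obtain ⟨L', hL'⟩ : ∃ L', L = 2 * L' := ⟨L / 2, by omega⟩
    have h1 : 2 * n = 2 * (L' * q) + r := by
      rw [← hdm, hL']; ring
    omega
  have hjL : j ≤ L := by omega
  have hnτ : 2 * n = tau m j L := by
    unfold tau
    rw [min_eq_right hjL, ← hdm, hqm, hr2]
    ring
  obtain ⟨Y0, hY0, hdmY⟩ := diam hB hKb hb hm416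
  rw [← hC] at hdmY
  obtain ⟨Y, hYd⟩ : ∃ Y, Y = Y0 + 4 := ⟨_, rfl⟩
  have hY : 1 ≤ Y := by omega
  obtain ⟨hT1, hT2⟩ := hT Y0 m hY0
  rw [← hYd] at hT1 hT2
  have hm2 : 2 / εa ≤ (m : ℝ) := by
    refine (Nat.le_ceil _).trans ?_
    exact_mod_cast (by omega : ⌈2 / εa⌉₊ ≤ m)
  have hYr : (1 : ℝ) ≤ (Y : ℝ) := by exact_mod_cast hY
  have hYR : 0 < (Y : ℝ) * R := by positivity
  refine ⟨Y * R, hYR, ?_, ?_⟩
  · have h1 : 1 / ε ≤ 1 / εa := one_div_le_one_div_of_le hεa (by linarith)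
    nlinarith
  · have hcount := prod_le hY hL hnτ hPL hadj hinj
      (fun f => ∀ k : ℕ, k < 2 * n → ‖pt (f (k : ZMod (2 * n))) - ((Y * R : ℝ) : ℂ) *
        cv γ ((k : ℝ) / (2 * n : ℕ))‖ ≤ ε * (Y * R)) (by
      intro w hw k hk
      refine (lo_close hY hL hjL hnτ hPL hadj hinj hγ.1 hR hεa hR1 hLa (by linarith) hm2 huc hP
        hw hk).trans ?_
      nlinarith)
    have hcount' : ((∏ i : Fin L, dm Y (len m j i) : ℕ) : ℝ) ≤
        ({f : ZMod (2 * n) → ℤ × ℤ | IsLoop (2 * n) f ∧ ∀ k : ℕ, k < 2 * n →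
          ‖pt (f (k : ZMod (2 * n))) - ((Y * R : ℝ) : ℂ) * cv γ ((k : ℝ) / (2 * n : ℕ))‖ ≤
            ε * (Y * R)}.ncard : ℝ) := by exact_mod_cast hcount
    -- numerics
    have hmn : m ≤ n := by
      have h1 : L * q ≤ 2 * n := by omega
      have h2 : 4 * q ≤ L * q := Nat.mul_le_mul_right _ hL
      omega
    have hn2 : 2 ≤ n := by omega
    have hmr : (416 : ℝ) ≤ m := by exact_mod_cast hm416
    have hnr : (416 : ℝ) ≤ n := by exact_mod_cast hm416.trans hmn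
    have hl1 : 1 ≤ log (n : ℝ) := by
      rw [← log_exp 1]
      apply log_le_log (exp_pos _)
      have := exp_one_lt_d9
      linarith
    have hlm : log (m : ℝ) ≤ log n := log_le_log (by linarith) (by exact_mod_cast hmn)
    have hlm0 : 0 ≤ log (m : ℝ) := log_natCast_nonneg m
    have hl3 : log (m : ℝ) ^ 3 ≤ log n ^ 3 := pow_le_pow_left₀ hlm0 hlm 3
    have hLr : (0 : ℝ) ≤ L := Nat.cast_nonneg L
    have hm1 : (0 : ℝ) < (m : ℝ) + 1 := by positivity
    -- each factor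
    have s0 : ∀ i : Fin L, (μ ^ m * exp (-(C * log n ^ 3))) / (m + 1) ≤ (dm Y (len m j i) : ℝ) := by
      intro i
      rw [div_le_iff₀ hm1]
      have h1 : dm Y0 m ≤ dm Y (len m j i) * (m + 1) := by
        unfold len
        split_ifs
        · rw [mul_comm]; exact hT2
        · calc dm Y0 m ≤ dm Y (m + 4) * 1 := by rw [mul_one]; exact hT1
            _ ≤ _ := Nat.mul_le_mul_left _ (by omega)
      have h2 : (dm Y0 m : ℝ) ≤ dm Y (len m j i) * ((m : ℝ) + 1) := by exact_mod_cast h1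
      refine le_trans ?_ h2
      refine le_trans ?_ hdmY
      gcongr
    have s1 : ((μ ^ m * exp (-(C * log n ^ 3))) / (m + 1)) ^ L ≤
        ((∏ i : Fin L, dm Y (len m j i) : ℕ) : ℝ) := by
      rw [Nat.cast_prod]
      calc ((μ ^ m * exp (-(C * log n ^ 3))) / (m + 1)) ^ L =
          ∏ _i : Fin L, ((μ ^ m * exp (-(C * log n ^ 3))) / (m + 1)) := by
            rw [prod_const, card_univ, Fintype.card_fin]
        _ ≤ _ := by
          apply prod_le_prod
          · intro i _; positivity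
          · intro i _; exact s0 i
    have s2 : ({f : ZMod (2 * n) → ℤ × ℤ | IsLoop (2 * n) f}.ncard : ℝ) ≤
        μ ^ (2 * n - 1) * exp (K * log ((2 * n - 1 : ℕ) : ℝ) ^ 2) := by
      refine le_trans ?_ (hB.up (2 * n - 1) (by omega))
      exact_mod_cast loops_le (2 * n) (by omega)
    have hlog2 : log ((2 * n - 1 : ℕ) : ℝ) ≤ 2 * log n := by
      have h1 : ((2 * n - 1 : ℕ) : ℝ) ≤ (n : ℝ) ^ 2 := by
        have : 2 * n - 1 ≤ n ^ 2 := by
          have : 2 * n ≤ n * n := Nat.mul_le_mul_right _ hn2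
          rw [sq]; omega
        exact_mod_cast this
      have h2 : (0 : ℝ) < ((2 * n - 1 : ℕ) : ℝ) := by exact_mod_cast (by omega : 0 < 2 * n - 1)
      have h3 := log_le_log h2 h1
      rw [log_pow] at h3
      exact_mod_cast h3
    have hlog20 : 0 ≤ log ((2 * n - 1 : ℕ) : ℝ) := log_natCast_nonneg _
    have s3 : μ ^ (2 * n - 1) ≤ μ ^ (m * L) * exp (5 * L * log μ) := by
      have e2 : exp (5 * L * log μ) = μ ^ (5 * L) := by
        rw [show (5 : ℝ) * L * log μ = ((5 * L : ℕ) : ℝ) * log μ by push_cast; ring, exp_nat_mul,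
          exp_log hμ0]
      rw [e2, ← pow_add]
      apply pow_le_pow_right₀ hB.one
      have : 2 * n = m * L + 4 * L + r := by rw [← hdm, hqm]; ring
      omega
    have hl0 : 0 ≤ log (n : ℝ) := by linarith
    have s4 : ((m : ℝ) + 1) ^ L ≤ exp (2 * L * log n) := by
      have h1 : (m : ℝ) + 1 ≤ exp (2 * log n) := by
        rw [show (2 : ℝ) * log n = log n + log n by ring, exp_add, exp_log (by linarith)]
        have : (m : ℝ) ≤ n := by exact_mod_cast hmn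
        nlinarith
      calc ((m : ℝ) + 1) ^ L ≤ (exp (2 * log n)) ^ L := by gcongr
        _ = exp (2 * L * log n) := by rw [← exp_nat_mul]; ring_nf
    refine ⟨lt_of_lt_of_le (by positivity) (s1.trans hcount'), ?_⟩
    refine le_trans ?_ hcount'
    refine le_trans ?_ s1
    rw [div_pow, le_div_iff₀ (by positivity)]
    calc exp (-((C * L + 4 * K + 2 * L + 5 * L * log μ) * log n ^ 3)) *
          ({f : ZMod (2 * n) → ℤ × ℤ | IsLoop (2 * n) f}.ncard : ℝ) * ((m : ℝ) + 1) ^ L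
        ≤ exp (-((C * L + 4 * K + 2 * L + 5 * L * log μ) * log n ^ 3)) *
          ((μ ^ (m * L) * exp (5 * L * log μ)) * exp (K * (2 * log n) ^ 2)) *
            exp (2 * L * log n) := by
          gcongr
          refine s2.trans ?_
          gcongr
      _ = μ ^ (m * L) * exp (-((C * L + 4 * K + 2 * L + 5 * L * log μ) * log n ^ 3) +
          5 * L * log μ + K * (2 * log n) ^ 2 + 2 * L * log n) := by
            rw [exp_add, exp_add, exp_add]; ring
      _ ≤ μ ^ (m * L) * exp (-(C * L * log n ^ 3)) := by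
          gcongr
          have a1 : log (n : ℝ) ^ 2 ≤ log n ^ 3 := pow_le_pow_right₀ hl1 (by norm_num)
          have a2 : 1 ≤ log (n : ℝ) ^ 3 := one_le_pow₀ hl1
          have a3 : 0 ≤ L * log μ := by positivity
          have a4 : log (n : ℝ) ≤ log n ^ 3 := le_self_pow₀ hl1 (by norm_num)
          have b1 := mul_le_mul_of_nonneg_left a1 hKn
          have b2 := mul_le_mul_of_nonneg_left a2 a3
          have b3 := mul_le_mul_of_nonneg_left a4 hLr
          have e1 : K * (2 * log (n : ℝ)) ^ 2 = 4 * (K * log n ^ 2) := by ring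
          have e2 : (C * L + 4 * K + 2 * L + 5 * L * log μ) * log (n : ℝ) ^ 3 =
            C * L * log n ^ 3 + 4 * (K * log n ^ 3) + 2 * (L * log n ^ 3) +
              5 * (L * log μ * log n ^ 3) := by ring
          rw [e1, e2]
          linarith
      _ = (μ ^ m * exp (-(C * log n ^ 3))) ^ L := by
            rw [mul_pow, ← pow_mul, ← exp_nat_mul]
            congr 2
            ring

end Pool.Agent.N949.PG
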